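import Mathlib
import Pool.Agent.H530Z.VojtaDefs
import Pool.Agent.H530Z.VojtaMain

set_option autoImplicit false

namespace Pool.Agent.Results.MP_79ab39_ag.AVojtaBoundFails

open Pool.Agent.H530Z.Vojta

/-- For every elliptic curve `E = ℂ / Λ`, on the blow-up `X` of `E × ℙ¹` at `(0, 0)`, `(0, 1)`,
`(0, ∞)`, for every `ε > 0` and every `B` there is a curve `C` of geometric genus `g = 1` with
`K_X · C > (4 + ε) (g - 1) + B`. -/
theorem result : ∀ (L : PeriodPair) (ε : ℝ), 0 < ε → ∀ B : ℝ, ∃ C : GenusOneCurve L,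
    (4 + ε) * ((C.genus : ℝ) - 1) + B < (C.canonicalDegree : ℝ) :=
  fun L ε _ B => not_linear_bound L (4 + ε) B

end Pool.Agent.Results.MP_79ab39_ag.AVojtaBoundFails
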